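import Mathlib

/-!
# Project BR4 (helper28), module CON: the Euler product of the constant
-/

set_option autoImplicit false

namespace Pool.Agent.H11.BR4

open Finset Filter Topology

noncomputable section

/-- the Euler factor -/
def ff (p : ℕ) : ℝ := (1 - 1 / (p : ℝ)) * (1 + (1 - 1 / (p : ℝ)) ^ 2 / ((p : ℝ) + 1))

theorem ff_eq (p : ℕ) (hp : 2 ≤ p) : (1 - 1 / (p : ℝ)) ^ 3 *
    (((1 - 1 / Real.sqrt (p : ℝ))⁻¹ ^ 2 + (1 + 1 / Real.sqrt (p : ℝ))⁻¹ ^ 2) / 2 + 1 / (p : ℝ)) /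
      (1 + 1 / (p : ℝ)) = ff p := by
  have hp' : (2:ℝ) ≤ p := by exact_mod_cast hp
  have hs2 : Real.sqrt (p : ℝ) ^ 2 = p := Real.sq_sqrt (by linarith)
  have hs1 : 1 < Real.sqrt (p : ℝ) := by
    rw [Real.lt_sqrt (by norm_num)]
    linarith
  rw [ff]
  generalize Real.sqrt (p : ℝ) = s at hs2 hs1 ⊢
  rw [← hs2]
  have h0 : s ≠ 0 := by positivity
  have h1 : s - 1 ≠ 0 := by linarith
  have h2 : s + 1 ≠ 0 := by positivity
  have h3 : s ^ 2 + 1 ≠ 0 := by positivity
  have e1 : (1 - 1 / s)⁻¹ = s / (s - 1) := by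
    rw [inv_eq_iff_eq_inv, inv_div]
    field_simp
  have e2 : (1 + 1 / s)⁻¹ = s / (s + 1) := by
    rw [inv_eq_iff_eq_inv, inv_div]
    field_simp
  have e3 : 1 + 1 / s ^ 2 = (s ^ 2 + 1) / s ^ 2 := by field_simp
  have e4 : 1 - 1 / s ^ 2 = (s - 1) * (s + 1) / s ^ 2 := by field_simp; ring
  rw [e1, e2, e3, e4]
  field_simp
  ring

theorem ff_pos (p : ℕ) (hp : 2 ≤ p) : 0 < ff p := by
  have hp' : (2:ℝ) ≤ p := by exact_mod_cast hp
  have h1 : 0 < 1 - 1 / (p : ℝ) := by
    rw [sub_pos, div_lt_one (by linarith)]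
    linarith
  rw [ff]
  positivity

theorem ff_le (p : ℕ) (hp : 2 ≤ p) : ‖ff p - 1‖ ≤ 4 * (1 / (p : ℝ) ^ 2) := by
  have hp' : (2:ℝ) ≤ p := by exact_mod_cast hp
  have h0 : (0:ℝ) < p := by linarith
  have h1 : ff p - 1 = -((4 * (p : ℝ) ^ 2 - 3 * p + 1) / ((p : ℝ) ^ 3 * (p + 1))) := by
    rw [ff]
    field_simp
    ring
  rw [h1, norm_neg, Real.norm_eq_abs, abs_of_nonneg (div_nonneg (by nlinarith) (by positivity)),
    mul_one_div, div_le_div_iff₀ (by positivity) (by positivity)]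
  have h2 : (4 * (p : ℝ) ^ 2 - 3 * p + 1) ≤ 4 * (p * (p + 1)) := by nlinarith
  calc (4 * (p : ℝ) ^ 2 - 3 * p + 1) * (p : ℝ) ^ 2 ≤ 4 * (p * (p + 1)) * (p : ℝ) ^ 2 :=
        mul_le_mul_of_nonneg_right h2 (by positivity)
    _ = 4 * ((p : ℝ) ^ 3 * (p + 1)) := by ring

theorem summable_sub : Summable fun p : Nat.Primes => ff p - 1 := by
  refine Summable.of_norm_bounded (g := fun p : Nat.Primes => 4 * (1 / ((p : ℕ) : ℝ) ^ 2)) ?_
    fun p => ff_le p p.2.two_le
  have h1 : Summable fun n : ℕ => 1 / (n : ℝ) ^ 2 := Real.summable_one_div_nat_pow.2 (by norm_num)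
  exact (h1.comp_injective Nat.Primes.coe_nat_injective).mul_left 4

theorem summable_log : Summable fun p : Nat.Primes => Real.log (ff p) := by
  have h := Real.summable_log_one_add_of_summable summable_sub
  refine h.congr fun p => ?_
  congr 1
  ring

theorem mult_ff : Multipliable fun p : Nat.Primes => ff p :=
  Real.multipliable_of_summable_log (f := fun p : Nat.Primes => ff p)
    (fun p : Nat.Primes => ff_pos p p.2.two_le) summable_log

/-- the product of the factors (as in the definition of `a2`) converges -/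
theorem mult_a2 : Multipliable fun p : Nat.Primes =>
    (1 - 1 / ((p : ℕ) : ℝ)) ^ 3 *
      (((1 - 1 / Real.sqrt ((p : ℕ) : ℝ))⁻¹ ^ 2 + (1 + 1 / Real.sqrt ((p : ℕ) : ℝ))⁻¹ ^ 2) / 2 +
        1 / ((p : ℕ) : ℝ)) / (1 + 1 / ((p : ℕ) : ℝ)) :=
  mult_ff.congr fun p => (ff_eq p p.2.two_le).symm

theorem prod_ff : ∏' p : Nat.Primes, ff p = Real.exp (∑' p : Nat.Primes, Real.log (ff p)) :=
  (Real.rexp_tsum_eq_tprod (f := fun p : Nat.Primes => ff p)
    (fun p : Nat.Primes => ff_pos p p.2.two_le) summable_log).symm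

theorem con0 : (∏' p : Nat.Primes, ff p =
      13 / 24 * ∏' p : Nat.Primes, if (p : ℕ) = 2 then 1 else ff p) ∧
    0 < ∏' p : Nat.Primes, ff p := by
  refine ⟨?_, ?_⟩
  · let two : Nat.Primes := ⟨2, Nat.prime_two⟩
    have hiff : ∀ p : Nat.Primes, (p : ℕ) = 2 ↔ p = two := fun p =>
      ⟨fun h => Subtype.ext h, fun h => by rw [h]⟩
    have hpos : ∀ p : Nat.Primes, 0 < (if (p : ℕ) = 2 then 1 else ff p : ℝ) := by
      intro p
      split_ifs
      · exact one_pos
      · exact ff_pos p p.2.two_le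
    have hlog : ∀ p : Nat.Primes, Real.log (if (p : ℕ) = 2 then 1 else ff p) =
        if p = two then 0 else Real.log (ff p) := by
      intro p
      by_cases hp : p = two
      · rw [if_pos ((hiff p).2 hp), if_pos hp, Real.log_one]
      · rw [if_neg (fun h => hp ((hiff p).1 h)), if_neg hp]
    have hsum : Summable fun p : Nat.Primes => Real.log (if (p : ℕ) = 2 then 1 else ff p) := by
      refine Summable.of_norm_bounded (g := fun p : Nat.Primes => ‖Real.log (ff p)‖)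
        summable_log.norm fun p => ?_
      rw [hlog]
      split_ifs
      · rw [norm_zero]; exact norm_nonneg _
      · exact le_rfl
    rw [← Real.rexp_tsum_eq_tprod hpos hsum, prod_ff, tsum_congr hlog,
      summable_log.tsum_eq_add_tsum_ite two, Real.exp_add,
      Real.exp_log (ff_pos 2 le_rfl)]
    congr 1
    simp only [ff]
    norm_num
  · rw [prod_ff]
    exact Real.exp_pos _

end

end Pool.Agent.H11.BR4
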