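import Pool.Agent.H28.BR.Stm5
import Pool.Agent.H11.BR.Con0

/-!
# Project BR4 (helper28), module CON: the constant `a₂`
-/

set_option autoImplicit false

namespace Pool.Agent.H11.BR4

/-- CON -/
theorem t_CON : Pool.Agent.H28.BR4.S_CON := by
  have h1 : Pool.Agent.H28.BR4.a2 = ∏' p : Nat.Primes, ff p :=
    tprod_congr fun p => ff_eq p p.2.two_le
  have h2 : Pool.Agent.H28.BR4.HH = ∏' p : Nat.Primes, if (p : ℕ) = 2 then 1 else ff p :=
    tprod_congr fun p => rfl
  unfold Pool.Agent.H28.BR4.S_CON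
  rw [h1, h2]
  exact con0

end Pool.Agent.H11.BR4
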