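import Mathlib

/-!
# Project BR4 (helper28), module DIA: the sum over the squarefree parts (Mathlib only)
-/

set_option autoImplicit false

namespace Pool.Agent.H11.BR4

open Finset

theorem harm_le (m : ℕ) : ∑ g ∈ Icc 1 m, 1 / (g : ℝ) ≤ 1 + Real.log m := by
  have h := harmonic_le_one_add_log m
  rw [harmonic_eq_sum_Icc] at h
  push_cast at h
  simpa only [one_div] using h

theorem dia_core (Q N : ℕ) (hQ : 1 ≤ Q) (hN : Q ≤ N) (F : ℕ → ℝ) (P : ℕ → Prop) [DecidablePred P]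
    (E K C M σ : ℝ) (hC : 0 ≤ C) (hE : |E| ≤ K) (hσ : 1 ≤ σ)
    (h1 : ∀ g : ℕ, 1 ≤ g → g ^ 2 ≤ Q → |F g - E * Real.log ((Q : ℝ) / (g : ℝ) ^ 2)| ≤ C * σ)
    (h2 : ∀ g : ℕ, 1 ≤ g → Q < g ^ 2 → |F g| ≤ C * ((Q : ℝ) / (g : ℝ) ^ 2))
    (h3 : |∑ g ∈ (Icc 1 ⌊Real.sqrt Q⌋₊).filter P, 1 / (g : ℝ) * Real.log (Real.sqrt Q / g) ^ 2 - M|
      ≤ C * σ * (1 + Real.log (Real.sqrt Q)) ^ 2) :
    |∑ g ∈ (Icc 1 N).filter P, 1 / (g : ℝ) * F g ^ 2 - 4 * E ^ 2 * M| ≤
      (C * (2 * K + C) + 2 * C ^ 2 + 4 * K ^ 2 * C) * (σ ^ 2 * (1 + Real.log Q) ^ 2) := by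
  have hK : 0 ≤ K := (abs_nonneg E).trans hE
  have hQ1 : (1 : ℝ) ≤ Q := by exact_mod_cast hQ
  set G := Real.sqrt Q with hG
  have hG2 : G ^ 2 = Q := Real.sq_sqrt (by positivity)
  have hG1 : 1 ≤ G := by
    by_contra hcon
    push Not at hcon
    have : G ^ 2 < 1 := by nlinarith [Real.sqrt_nonneg (Q : ℝ)]
    linarith
  have hlG : Real.log G = Real.log Q / 2 := Real.log_sqrt (by positivity)
  set m := ⌊G⌋₊ with hm
  have hm1 : 1 ≤ m := Nat.le_floor (by simpa using hG1)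
  have hmG : (m : ℝ) ≤ G := Nat.floor_le (by positivity)
  have hGm : G < m + 1 := Nat.lt_floor_add_one G
  have hm1' : (1 : ℝ) ≤ m := by exact_mod_cast hm1
  have hlQ : 0 ≤ Real.log Q := Real.log_nonneg hQ1
  have hGQ : G ≤ Q := by nlinarith
  have hmN : m ≤ N := by
    have h : (m : ℝ) ≤ N := hmG.trans (hGQ.trans (by exact_mod_cast hN))
    exact_mod_cast h
  have hsplit : ∑ g ∈ (Icc 1 N).filter P, 1 / (g : ℝ) * F g ^ 2 =
      ∑ g ∈ (Icc 1 m).filter P, 1 / (g : ℝ) * F g ^ 2 +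
        ∑ g ∈ (Ioc m N).filter P, 1 / (g : ℝ) * F g ^ 2 := by
    rw [← sum_union]
    · congr 1
      rw [← filter_union]
      congr 1
      ext g
      simp only [mem_Icc, mem_union, mem_Ioc]
      omega
    · rw [disjoint_left]
      intro g hg hg'
      simp only [mem_filter, mem_Icc, mem_Ioc] at hg hg'
      omega
  -- the small `g`
  have hA : |∑ g ∈ (Icc 1 m).filter P, 1 / (g : ℝ) * F g ^ 2 -
      4 * E ^ 2 * ∑ g ∈ (Icc 1 m).filter P, 1 / (g : ℝ) * Real.log (G / g) ^ 2| ≤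
      C * (2 * K + C) * (σ ^ 2 * (1 + Real.log Q) ^ 2) := by
    rw [mul_sum, ← sum_sub_distrib]
    have hterm : ∀ g ∈ (Icc 1 m).filter P,
        |1 / (g : ℝ) * F g ^ 2 - 4 * E ^ 2 * (1 / (g : ℝ) * Real.log (G / g) ^ 2)| ≤
          1 / (g : ℝ) * (C * (2 * K + C) * (σ ^ 2 * (1 + Real.log Q))) := by
      intro g hg
      rw [mem_filter, mem_Icc] at hg
      obtain ⟨⟨hg1, hgm⟩, -⟩ := hg
      have hg1' : (1 : ℝ) ≤ g := by exact_mod_cast hg1
      have hgG : (g : ℝ) ≤ G := (show (g : ℝ) ≤ m by exact_mod_cast hgm).trans hmG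
      have hgQ : g ^ 2 ≤ Q := by
        have h : (g : ℝ) ^ 2 ≤ Q := by rw [← hG2]; exact pow_le_pow_left₀ (by linarith) hgG 2
        exact_mod_cast h
      have hlog : Real.log ((Q : ℝ) / (g : ℝ) ^ 2) = 2 * Real.log (G / g) := by
        rw [← hG2, ← div_pow, Real.log_pow]
        norm_num
      have hl0 : 0 ≤ Real.log (G / g) := Real.log_nonneg (by rw [le_div_iff₀ (by linarith)]; linarith)
      have hl1 : 2 * Real.log (G / g) ≤ Real.log Q := by
        rw [Real.log_div (by positivity) (by positivity), hlG]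
        have := Real.log_nonneg hg1'
        linarith
      have ha := h1 g hg1 hgQ
      rw [hlog] at ha
      set L := 2 * Real.log (G / g) with hL
      have hL0 : 0 ≤ L := by positivity
      have e1 : 1 / (g : ℝ) * F g ^ 2 - 4 * E ^ 2 * (1 / (g : ℝ) * Real.log (G / g) ^ 2) =
          1 / (g : ℝ) * ((F g - E * L) * (F g - E * L + 2 * (E * L))) := by
        rw [hL]; ring
      rw [e1, abs_mul, abs_of_nonneg (by positivity : (0:ℝ) ≤ 1 / (g : ℝ)), abs_mul]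
      refine mul_le_mul_of_nonneg_left ?_ (by positivity)
      have hEL : |E * L| ≤ K * Real.log Q := by
        rw [abs_mul, abs_of_nonneg hL0]
        exact mul_le_mul hE hl1 hL0 hK
      have h5 : |F g - E * L + 2 * (E * L)| ≤ (2 * K + C) * (σ * (1 + Real.log Q)) := by
        calc |F g - E * L + 2 * (E * L)| ≤ |F g - E * L| + |2 * (E * L)| := abs_add_le _ _
          _ ≤ C * σ + 2 * (K * Real.log Q) := by
              rw [abs_mul 2, abs_two]
              linarith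
          _ ≤ _ := by
              have hσQ : 0 ≤ σ * Real.log Q := by positivity
              have h6 : 0 ≤ C * (σ * Real.log Q) := mul_nonneg hC hσQ
              have h7 : 0 ≤ K * σ := by positivity
              have h8 : 0 ≤ K * ((σ - 1) * Real.log Q) :=
                mul_nonneg hK (mul_nonneg (by linarith) hlQ)
              nlinarith
      calc |F g - E * L| * |F g - E * L + 2 * (E * L)|
          ≤ (C * σ) * ((2 * K + C) * (σ * (1 + Real.log Q))) :=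
            mul_le_mul ha h5 (abs_nonneg _) (by positivity)
        _ = _ := by ring
    calc |∑ g ∈ (Icc 1 m).filter P,
          (1 / (g : ℝ) * F g ^ 2 - 4 * E ^ 2 * (1 / (g : ℝ) * Real.log (G / g) ^ 2))|
        ≤ ∑ g ∈ (Icc 1 m).filter P,
            |1 / (g : ℝ) * F g ^ 2 - 4 * E ^ 2 * (1 / (g : ℝ) * Real.log (G / g) ^ 2)| :=
          abs_sum_le_sum_abs _ _
      _ ≤ ∑ g ∈ (Icc 1 m).filter P,
            1 / (g : ℝ) * (C * (2 * K + C) * (σ ^ 2 * (1 + Real.log Q))) := sum_le_sum hterm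
      _ ≤ ∑ g ∈ Icc 1 m, 1 / (g : ℝ) * (C * (2 * K + C) * (σ ^ 2 * (1 + Real.log Q))) :=
          sum_le_sum_of_subset_of_nonneg (filter_subset _ _) fun g _ _ => by positivity
      _ = (∑ g ∈ Icc 1 m, 1 / (g : ℝ)) * (C * (2 * K + C) * (σ ^ 2 * (1 + Real.log Q))) := by
          rw [sum_mul]
      _ ≤ (1 + Real.log Q) * (C * (2 * K + C) * (σ ^ 2 * (1 + Real.log Q))) := by
          refine mul_le_mul_of_nonneg_right ((harm_le m).trans ?_) (by positivity)
          have := Real.log_le_log (by linarith) (hmG.trans hGQ)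
          linarith
      _ = _ := by ring
  -- the large `g`
  have hB : |∑ g ∈ (Ioc m N).filter P, 1 / (g : ℝ) * F g ^ 2| ≤
      2 * C ^ 2 * (σ ^ 2 * (1 + Real.log Q) ^ 2) := by
    have hterm : ∀ g ∈ (Ioc m N).filter P,
        |1 / (g : ℝ) * F g ^ 2| ≤ C ^ 2 * G * ((g : ℝ) ^ 2)⁻¹ := by
      intro g hg
      rw [mem_filter, mem_Ioc] at hg
      obtain ⟨⟨hg1, hgN⟩, -⟩ := hg
      have hgG : G < g := by
        have h : (m : ℝ) + 1 ≤ g := by exact_mod_cast hg1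
        linarith
      have hg0 : (0 : ℝ) < g := by linarith
      have hgQ : Q < g ^ 2 := by
        have h : (Q : ℝ) < (g : ℝ) ^ 2 := by
          rw [← hG2]; exact pow_lt_pow_left₀ hgG (by linarith) (by norm_num)
        exact_mod_cast h
      have hb := h2 g (by omega) hgQ
      rw [abs_mul, abs_of_nonneg (by positivity : (0:ℝ) ≤ 1 / (g : ℝ)), abs_pow]
      calc 1 / (g : ℝ) * |F g| ^ 2 ≤ 1 / (g : ℝ) * (C * ((Q : ℝ) / (g : ℝ) ^ 2)) ^ 2 :=
            mul_le_mul_of_nonneg_left (pow_le_pow_left₀ (abs_nonneg _) hb 2) (by positivity)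
        _ = C ^ 2 * G * ((g : ℝ) ^ 2)⁻¹ * (G / g) ^ 3 := by
            rw [← hG2]; field_simp
        _ ≤ C ^ 2 * G * ((g : ℝ) ^ 2)⁻¹ * 1 := by
            refine mul_le_mul_of_nonneg_left ?_ (by positivity)
            exact pow_le_one₀ (by positivity) ((div_le_one hg0).2 hgG.le)
        _ = _ := mul_one _
    calc |∑ g ∈ (Ioc m N).filter P, 1 / (g : ℝ) * F g ^ 2|
        ≤ ∑ g ∈ (Ioc m N).filter P, |1 / (g : ℝ) * F g ^ 2| := abs_sum_le_sum_abs _ _
      _ ≤ ∑ g ∈ (Ioc m N).filter P, C ^ 2 * G * ((g : ℝ) ^ 2)⁻¹ := sum_le_sum hterm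
      _ ≤ ∑ g ∈ Ioc m N, C ^ 2 * G * ((g : ℝ) ^ 2)⁻¹ :=
          sum_le_sum_of_subset_of_nonneg (filter_subset _ _) fun g _ _ => by positivity
      _ = C ^ 2 * G * ∑ g ∈ Ioc m N, ((g : ℝ) ^ 2)⁻¹ := by rw [mul_sum]
      _ ≤ C ^ 2 * G * (m : ℝ)⁻¹ := by
          refine mul_le_mul_of_nonneg_left ?_ (by positivity)
          refine (sum_Ioc_inv_sq_le_sub (by omega) hmN).trans ?_
          have : (0 : ℝ) ≤ (N : ℝ)⁻¹ := by positivity
          linarith
      _ = C ^ 2 * (G / m) := by rw [div_eq_mul_inv]; ring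
      _ ≤ C ^ 2 * 2 := by
          refine mul_le_mul_of_nonneg_left ?_ (by positivity)
          rw [div_le_iff₀ (by linarith)]
          linarith
      _ ≤ C ^ 2 * 2 * (σ ^ 2 * (1 + Real.log Q) ^ 2) := by
          refine le_mul_of_one_le_right (by positivity) ?_
          exact one_le_mul_of_one_le_of_one_le (one_le_pow₀ hσ) (one_le_pow₀ (by linarith))
      _ = _ := by ring
  have hCc : |4 * E ^ 2 * ∑ g ∈ (Icc 1 m).filter P, 1 / (g : ℝ) * Real.log (G / g) ^ 2 -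
      4 * E ^ 2 * M| ≤ 4 * K ^ 2 * C * (σ ^ 2 * (1 + Real.log Q) ^ 2) := by
    rw [← mul_sub, abs_mul]
    have hE2 : |4 * E ^ 2| ≤ 4 * K ^ 2 := by
      rw [abs_mul, abs_pow, abs_of_pos (by norm_num : (0:ℝ) < 4)]
      exact mul_le_mul_of_nonneg_left (pow_le_pow_left₀ (abs_nonneg _) hE 2) (by norm_num)
    have h4 : C * σ * (1 + Real.log G) ^ 2 ≤ C * (σ ^ 2 * (1 + Real.log Q) ^ 2) := by
      rw [mul_assoc]
      refine mul_le_mul_of_nonneg_left ?_ hC
      refine mul_le_mul (le_self_pow₀ hσ (by norm_num)) ?_ (by positivity) (by positivity)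
      refine pow_le_pow_left₀ ?_ ?_ 2
      · rw [hlG]; linarith
      · rw [hlG]; linarith
    calc |4 * E ^ 2| * |∑ g ∈ (Icc 1 m).filter P, 1 / (g : ℝ) * Real.log (G / g) ^ 2 - M|
        ≤ 4 * K ^ 2 * (C * (σ ^ 2 * (1 + Real.log Q) ^ 2)) :=
          mul_le_mul hE2 (h3.trans h4) (abs_nonneg _) (by positivity)
      _ = _ := by ring
  rw [hsplit]
  have e : ∑ g ∈ (Icc 1 m).filter P, 1 / (g : ℝ) * F g ^ 2 +
        ∑ g ∈ (Ioc m N).filter P, 1 / (g : ℝ) * F g ^ 2 - 4 * E ^ 2 * M =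
      (∑ g ∈ (Icc 1 m).filter P, 1 / (g : ℝ) * F g ^ 2 -
        4 * E ^ 2 * ∑ g ∈ (Icc 1 m).filter P, 1 / (g : ℝ) * Real.log (G / g) ^ 2) +
      (4 * E ^ 2 * ∑ g ∈ (Icc 1 m).filter P, 1 / (g : ℝ) * Real.log (G / g) ^ 2 -
        4 * E ^ 2 * M) +
      ∑ g ∈ (Ioc m N).filter P, 1 / (g : ℝ) * F g ^ 2 := by ring
  rw [e]
  refine (abs_add_three _ _ _).trans ?_
  calc _ ≤ C * (2 * K + C) * (σ ^ 2 * (1 + Real.log Q) ^ 2) +
        4 * K ^ 2 * C * (σ ^ 2 * (1 + Real.log Q) ^ 2) +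
        2 * C ^ 2 * (σ ^ 2 * (1 + Real.log Q) ^ 2) := add_le_add (add_le_add hA hCc) hB
    _ = _ := by ring

end Pool.Agent.H11.BR4
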