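import Pool.Agent.H28.BR.Stm5
import Pool.Agent.H11.BR.Dia0

/-!
# Project BR4 (helper28), module DIA: the diagonal
-/

set_option autoImplicit false

namespace Pool.Agent.H11.BR4

open Finset Filter Topology MeasureTheory Pool.Agent.H306R2.RZ Pool.Agent.H306R2.RG
  Pool.Agent.Q122.FM Pool.Agent.H28.BR Pool.Agent.H28.BR3 Pool.Agent.H28.BR4

theorem one_le_sg (d : ℕ) (hd : 1 ≤ d) : 1 ≤ Pool.Agent.H28.BR4.sg d := by
  unfold Pool.Agent.H28.BR4.sg
  have h1 : (1 : ℕ) ∈ d.divisors := Nat.one_mem_divisors.2 (by omega)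
  calc (1 : ℝ) = ((1 : ℕ) : ℝ) ^ (-(3 / 4) : ℝ) := by rw [Nat.cast_one, Real.one_rpow]
    _ ≤ _ := single_le_sum (f := fun δ : ℕ => (δ : ℝ) ^ (-(3 / 4) : ℝ))
      (fun δ _ => Real.rpow_nonneg (Nat.cast_nonneg _) _) h1

/-- DIA -/
theorem t_DIA (hDGS : Pool.Agent.H28.BR4.S_DGS) (hINN : Pool.Agent.H28.BR4.S_INN)
    (hSQG : Pool.Agent.H28.BR4.S_SQG) : Pool.Agent.H28.BR4.S_DIA := by
  obtain ⟨C1, hC1, hI⟩ := hINN
  obtain ⟨C2, hC2, hS⟩ := hSQG
  set K : ℝ := (|gm (1 / 2 + ((0 : ℕ) : ℝ))| + |gm (1 / 2 + ((1 : ℕ) : ℝ))|) *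
    (|S0 0| + |S0 1| + |S0 (-1)|) with hKdef
  have hK : 0 ≤ K := by positivity
  set C : ℝ := C1 + C2 with hCdef
  have hC : 0 < C := by positivity
  refine ⟨(C * (2 * K + C) + 2 * C ^ 2 + 4 * K ^ 2 * C) * 16, by positivity, ?_⟩
  intro p hp d hd N hN
  obtain ⟨-, ⟨hr1, hr8⟩, ha, hη⟩ := id hp
  have hd1 : 1 ≤ d := hd.pos
  have hd1' : (1 : ℝ) ≤ d := by exact_mod_cast hd1
  have hd0 : (0 : ℝ) < d := by linarith
  have hQ : 1 ≤ p.r * d := Nat.mul_pos hr1 hd1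
  have hQc : ((p.r * d : ℕ) : ℝ) = (p.r : ℝ) * (d : ℝ) := by push_cast; ring
  have hσ := one_le_sg d hd1
  set E : ℝ := gm (1 / 2 + p.a) * S0 p.η * ((d.totient : ℝ) / (2 * d)) / 4 with hEdef
  have hgm : |gm (1 / 2 + (p.a : ℝ))| ≤
      |gm (1 / 2 + ((0 : ℕ) : ℝ))| + |gm (1 / 2 + ((1 : ℕ) : ℝ))| := by
    rcases ha with h | h
    · rw [h]; exact le_add_of_nonneg_right (abs_nonneg _)
    · rw [h]; exact le_add_of_nonneg_left (abs_nonneg _)
  have hS0 : |S0 p.η| ≤ |S0 0| + |S0 1| + |S0 (-1)| := by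
    have e0 := abs_nonneg (S0 0)
    have e1 := abs_nonneg (S0 1)
    have e2 := abs_nonneg (S0 (-1))
    rcases hη with h | h | h <;> rw [h] <;> linarith
  have hphi : |(d.totient : ℝ) / (2 * d)| ≤ 1 := by
    rw [abs_of_nonneg (by positivity), div_le_one (by positivity)]
    have : (d.totient : ℝ) ≤ d := by exact_mod_cast Nat.totient_le d
    linarith
  have hE : |E| ≤ K := by
    rw [hEdef, abs_div, abs_mul, abs_mul, abs_of_pos (by norm_num : (0:ℝ) < 4)]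
    have h1 : |gm (1 / 2 + (p.a : ℝ))| * |S0 p.η| ≤ K :=
      mul_le_mul hgm hS0 (abs_nonneg _) (by positivity)
    have h2 : |gm (1 / 2 + (p.a : ℝ))| * |S0 p.η| * |(d.totient : ℝ) / (2 * d)| ≤ K * 1 :=
      mul_le_mul h1 hphi (abs_nonneg _) hK
    rw [div_le_iff₀ (by norm_num)]
    linarith
  have hSG := hS d hd (Real.sqrt ((p.r * d : ℕ) : ℝ)) (by
    rw [Real.one_le_sqrt]
    exact_mod_cast hQ)
  have hcore := dia_core (p.r * d) N hQ hN (fun g => II p N d g (1 / (p.r * (d : ℝ))))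
    (fun g => Odd g ∧ Squarefree g ∧ g.Coprime d) E K C
    (4 / Real.pi ^ 2 * (∏ p ∈ d.primeFactors, (p : ℝ) / ((p : ℝ) + 1)) *
      (Real.log (Real.sqrt ((p.r * d : ℕ) : ℝ)) ^ 3 / 3)) (Pool.Agent.H28.BR4.sg d) hC.le hE hσ
    (fun g hg hgQ => by
      have h := (hI p hp d hd g N hg hN).1 hgQ
      rw [hQc]
      have e : E * Real.log ((p.r : ℝ) * (d : ℝ) / (g : ℝ) ^ 2) =
          gm (1 / 2 + p.a) * S0 p.η * ((d.totient : ℝ) / (2 * d)) *
            (Real.log (p.r * (d : ℝ) / (g : ℝ) ^ 2) / 4) := by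
        rw [hEdef]; ring
      rw [e]
      refine h.trans (mul_le_mul_of_nonneg_right ?_ (by linarith))
      rw [hCdef]; linarith)
    (fun g hg hgQ => by
      have h := (hI p hp d hd g N hg hN).2 hgQ
      rw [hQc]
      refine h.trans (mul_le_mul_of_nonneg_right ?_ (by positivity))
      rw [hCdef]; linarith)
    (by
      refine hSG.trans ?_
      refine mul_le_mul_of_nonneg_right (mul_le_mul_of_nonneg_right ?_ (by linarith))
        (by positivity)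
      rw [hCdef]; linarith)
  have hmain : 4 * E ^ 2 * (4 / Real.pi ^ 2 * (∏ p ∈ d.primeFactors, (p : ℝ) / ((p : ℝ) + 1)) *
      (Real.log (Real.sqrt ((p.r * d : ℕ) : ℝ)) ^ 3 / 3)) = MD p d := by
    rw [Real.log_sqrt (by positivity), hQc, hEdef, MD, hh]
    have hpi : Real.pi ≠ 0 := Real.pi_ne_zero
    field_simp
    ring
  rw [hmain, ← hDGS p hp N d _ hd] at hcore
  refine hcore.trans ?_
  have hlog : (1 + Real.log ((p.r * d : ℕ) : ℝ)) ^ 2 ≤ 16 * lg d ^ 2 := by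
    have h8 : Real.log (p.r : ℝ) ≤ 3 := by
      have h1 : Real.log (p.r : ℝ) ≤ Real.log 8 :=
        Real.log_le_log (by exact_mod_cast hr1) (by exact_mod_cast hr8)
      have h2 : Real.log 8 = 3 * Real.log 2 := by
        rw [show (8 : ℝ) = 2 ^ 3 by norm_num, Real.log_pow]
        norm_num
      have h3 := Real.log_two_lt_d9
      linarith
    have hld : 0 ≤ Real.log (d : ℝ) := Real.log_nonneg hd1'
    have h4 : Real.log ((p.r * d : ℕ) : ℝ) ≤ 3 + Real.log d := by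
      rw [hQc, Real.log_mul (by positivity) (by positivity)]
      linarith
    have h5 : 0 ≤ Real.log ((p.r * d : ℕ) : ℝ) := Real.log_nonneg (by exact_mod_cast hQ)
    have h6 : 1 + Real.log ((p.r * d : ℕ) : ℝ) ≤ 4 * lg d := by
      unfold lg
      linarith
    calc (1 + Real.log ((p.r * d : ℕ) : ℝ)) ^ 2 ≤ (4 * lg d) ^ 2 :=
          pow_le_pow_left₀ (by linarith) h6 2
      _ = _ := by ring
  calc _ ≤ (C * (2 * K + C) + 2 * C ^ 2 + 4 * K ^ 2 * C) * (Pool.Agent.H28.BR4.sg d ^ 2 * (16 * lg d ^ 2)) := by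
        refine mul_le_mul_of_nonneg_left ?_ (by positivity)
        exact mul_le_mul_of_nonneg_left hlog (by positivity)
    _ = _ := by ring

end Pool.Agent.H11.BR4
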